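import Mathlib

/-!
# Every tropical polynomial is a quotient of two products of units

Let `f = max_{a ∈ A} (c_a + a · x)`. If the lifted points `(a, c_a)` do not lie on the graph of an
affine function, there is an affine dependence `∑ w_a a = 0`, `∑ w_a = 0` with `∑ w_a c_a < 0`. Let
`Z` be the set of the exponents with `w_a > 0`. At every point `x` some monomial of `Z` is at most
the maximum of the monomials with `w_a < 0`, and this gives the identity
`∑_{S ⊆ Z} (-1) ^ |S| max_{a ∈ A \ S} (c_a + a · x) = 0`, which expresses `f` by tropical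
polynomials with fewer monomials. So `f` is an alternating sum of units.
-/

set_option autoImplicit false

namespace Pool.Agent.Results.MP_b8ee47_co.AllRationallyFactorizable

open Finset

/-- The tropical monomial `c ⊙ x ^ a`, that is, the affine function `c + a · x`. -/
def mono {n : ℕ} (a : Fin n → ℕ) (c : ℝ) (x : Fin n → ℝ) : ℝ := c + ∑ i, (a i : ℝ) * x i

/-- The tropical polynomial `max_{a ∈ A} (c_a + a · x)`, as a function. -/
noncomputable def trop {n : ℕ} (A : Finset (Fin n → ℕ)) (hA : A.Nonempty) (c : (Fin n → ℕ) → ℝ)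
    (x : Fin n → ℝ) : ℝ := A.sup' hA fun a => mono a (c a) x

/-- `f` is a tropical polynomial. -/
def IsTropicalPolynomial {n : ℕ} (f : (Fin n → ℝ) → ℝ) : Prop :=
  ∃ (A : Finset (Fin n → ℕ)) (hA : A.Nonempty) (c : (Fin n → ℕ) → ℝ), f = trop A hA c

/-- The exponent vector as a point of `ℝ ^ n`. -/
def pt {n : ℕ} (a : Fin n → ℕ) : Fin n → ℝ := fun i => (a i : ℝ)

/-- The Newton polytope `conv A`. -/
def newt {n : ℕ} (A : Finset (Fin n → ℕ)) : Set (Fin n → ℝ) := convexHull ℝ (pt '' (A : Set (Fin n → ℕ)))

/-- The cells of the regular subdivision: the projections to `ℝ ^ n` of the lower faces of the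
polytope `conv {(a, -c_a)}`. Such a face is the set where a linear functional `(a, t) ↦ t - p · a`
is minimal on it, that is, the convex hull of the lifted exponents `a` for which `c_a + a · p` is
maximal. -/
def cells {n : ℕ} (A : Finset (Fin n → ℕ)) (hA : A.Nonempty) (c : (Fin n → ℕ) → ℝ) :
    Set (Set (Fin n → ℝ)) :=
  {C | ∃ p : Fin n → ℝ, C = convexHull ℝ (pt '' {a | a ∈ A ∧ mono a (c a) p = trop A hA c p})}

/-- `f` is a unit: the regular subdivision is trivial, its only maximal cell is the whole Newton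
polytope. -/
def IsTropicalUnit {n : ℕ} (f : (Fin n → ℝ) → ℝ) : Prop :=
  ∃ (A : Finset (Fin n → ℕ)) (hA : A.Nonempty) (c : (Fin n → ℕ) → ℝ), f = trop A hA c ∧
    ∀ C : Set (Fin n → ℝ), Maximal (fun D => D ∈ cells A hA c) C ↔ C = newt A

/-- `f` is a finite tropical product (that is, a sum) of at least one unit. -/
def IsProductOfUnits {n : ℕ} (f : (Fin n → ℝ) → ℝ) : Prop :=
  ∃ (k : ℕ) (u : Fin (k + 1) → (Fin n → ℝ) → ℝ), (∀ i, IsTropicalUnit (u i)) ∧
    ∀ x, f x = ∑ i, u i x

/-- `f` is rationally factorizable: `f ⊙ g = h` for products of units `g` and `h`. -/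
def RationallyFactorizable {n : ℕ} (f : (Fin n → ℝ) → ℝ) : Prop :=
  ∃ g h : (Fin n → ℝ) → ℝ, IsProductOfUnits g ∧ IsProductOfUnits h ∧ ∀ x, f x + g x = h x

section proof

variable {n : ℕ}

/-- If all lifted exponents lie on the graph of an affine function then `f` is a unit. -/
theorem unit_of_affine (A : Finset (Fin n → ℕ)) (hA : A.Nonempty) (c : (Fin n → ℕ) → ℝ)
    (p : Fin n → ℝ) (t : ℝ) (h : ∀ a ∈ A, mono a (c a) p = t) : IsTropicalUnit (trop A hA c) := by
  refine ⟨A, hA, c, rfl, ?_⟩
  have htp : trop A hA c p = t := by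
    unfold trop
    obtain ⟨a, ha⟩ := hA
    apply le_antisymm
    · exact Finset.sup'_le _ _ fun b hb => (h b hb).le
    · rw [← h a ha]
      exact Finset.le_sup' (fun a => mono a (c a) p) ha
  have hmem : newt A ∈ cells A hA c := by
    refine ⟨p, ?_⟩
    unfold newt
    congr 2
    ext a
    constructor
    · intro ha
      exact ⟨ha, by rw [htp]; exact h a ha⟩
    · intro ha
      exact ha.1
  have hle : ∀ C ∈ cells A hA c, C ⊆ newt A := by
    rintro C ⟨q, rfl⟩
    apply convexHull_mono
    apply Set.image_mono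
    intro a ha
    exact ha.1
  intro C
  constructor
  · intro hC
    exact le_antisymm (hle C hC.prop) (hC.le_of_ge hmem (hle C hC.prop))
  · rintro rfl
    exact ⟨hmem, fun D hD _ => hle D hD⟩

theorem product_of_unit {f : (Fin n → ℝ) → ℝ} (h : IsTropicalUnit f) : IsProductOfUnits f :=
  ⟨0, fun _ => f, fun _ => h, fun x => by simp⟩

theorem product_add {f g : (Fin n → ℝ) → ℝ} (hf : IsProductOfUnits f) (hg : IsProductOfUnits g) :
    IsProductOfUnits (f + g) := by
  obtain ⟨k, u, hu, hf⟩ := hf
  obtain ⟨l, v, hv, hg⟩ := hg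
  refine ⟨k + 1 + l, fun i => Fin.append u v (Fin.cast (by omega) i), ?_, ?_⟩
  · intro i
    refine Fin.addCases (motive := fun j => IsTropicalUnit (Fin.append u v j)) ?_ ?_ _
    · intro j
      rw [Fin.append_left]
      exact hu j
    · intro j
      rw [Fin.append_right]
      exact hv j
  · intro x
    have h1 : ∑ i : Fin (k + 1 + l + 1), Fin.append u v (Fin.cast (by omega) i) x =
        ∑ j : Fin (k + 1 + (l + 1)), Fin.append u v j x := by
      apply Fintype.sum_equiv (finCongr (by omega))
      intro i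
      rfl
    rw [h1, Fin.sum_univ_add, Pi.add_apply, hf x, hg x]
    simp only [Fin.append_left, Fin.append_right]

theorem unit_zero : IsTropicalUnit (0 : (Fin n → ℝ) → ℝ) := by
  have h := unit_of_affine ({0} : Finset (Fin n → ℕ)) (by simp) (fun _ => 0) 0 0 (by
    intro a ha
    simp [mono])
  convert h using 1
  funext x
  simp [trop, mono]

/-- The group of all quotients of products of units. -/
noncomputable def quot (n : ℕ) : AddSubgroup ((Fin n → ℝ) → ℝ) where
  carrier := {f | RationallyFactorizable f}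
  add_mem' := by
    rintro f f' ⟨g, h, hg, hh, e⟩ ⟨g', h', hg', hh', e'⟩
    refine ⟨g + g', h + h', product_add hg hg', product_add hh hh', fun x => ?_⟩
    simp only [Pi.add_apply]
    linarith [e x, e' x]
  zero_mem' := ⟨0, 0, product_of_unit unit_zero, product_of_unit unit_zero, fun x => by simp⟩
  neg_mem' := by
    rintro f ⟨g, h, hg, hh, e⟩
    refine ⟨h, g, hh, hg, fun x => ?_⟩
    simp only [Pi.neg_apply]
    linarith [e x]

theorem unit_mem {f : (Fin n → ℝ) → ℝ} (h : IsTropicalUnit f) : f ∈ quot n := by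
  refine ⟨0, f, product_of_unit unit_zero, product_of_unit h, fun x => by simp⟩

/-- The maximum over a possibly empty set of exponents. -/
noncomputable def tropE (c : (Fin n → ℕ) → ℝ) (B : Finset (Fin n → ℕ)) (x : Fin n → ℝ) : ℝ :=
  if h : B.Nonempty then trop B h c x else 0

/-- Fredholm alternative for the lifted exponents. -/
theorem alternative (A : Finset (Fin n → ℕ)) (c : (Fin n → ℕ) → ℝ) :
    (∃ (p : Fin n → ℝ) (t : ℝ), ∀ a ∈ A, mono a (c a) p = t) ∨
    ∃ w : (Fin n → ℕ) → ℝ, ∑ a ∈ A, w a = 0 ∧ (∀ i, ∑ a ∈ A, w a * (a i : ℝ) = 0) ∧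
      ∑ a ∈ A, w a * c a < 0 := by
  classical
  let T : ({a // a ∈ A} → ℝ) →ₗ[ℝ] ((Fin n → ℝ) × ℝ) :=
    { toFun := fun w => (fun i => ∑ a, w a * (a.1 i : ℝ), ∑ a, w a)
      map_add' := by
        intro w w'
        ext i
        · simp [add_mul, Finset.sum_add_distrib]
        · simp [Finset.sum_add_distrib]
      map_smul' := by
        intro r w
        ext i
        · simp [mul_assoc, Finset.mul_sum]
        · simp [Finset.mul_sum] }
  let D : ({a // a ∈ A} → ℝ) →ₗ[ℝ] ℝ :=
    { toFun := fun w => ∑ a, w a * c a.1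
      map_add' := by
        intro w w'
        simp [add_mul, Finset.sum_add_distrib]
      map_smul' := by
        intro r w
        simp [mul_assoc, Finset.mul_sum] }
  by_cases hD : LinearMap.ker T ≤ LinearMap.ker D
  · left
    have h1 : D ∈ LinearMap.range T.dualMap := by
      rw [LinearMap.range_dualMap_eq_dualAnnihilator_ker, Submodule.mem_dualAnnihilator]
      intro w hw
      exact hD hw
    obtain ⟨φ, hφ⟩ := h1
    refine ⟨fun i => -φ (Pi.single i 1, 0), φ (0, 1), ?_⟩
    intro a ha
    have h2 : D (Pi.single ⟨a, ha⟩ 1) = φ (T (Pi.single ⟨a, ha⟩ 1)) := by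
      rw [← hφ]
      rfl
    have h3 : D (Pi.single ⟨a, ha⟩ 1) = c a := by
      change ∑ b : {a // a ∈ A}, (Pi.single (⟨a, ha⟩ : {a // a ∈ A}) (1 : ℝ) : {a // a ∈ A} → ℝ) b * c b.1 = c a
      rw [Finset.sum_eq_single ⟨a, ha⟩]
      · simp
      · intro b _ hb
        rw [Pi.single_eq_of_ne hb]
        simp
      · simp
    have h4 : T (Pi.single ⟨a, ha⟩ 1) = ∑ i, (a i : ℝ) • ((Pi.single i 1, 0) : (Fin n → ℝ) × ℝ) +
        ((0, 1) : (Fin n → ℝ) × ℝ) := by
      change ((fun i => ∑ b : {a // a ∈ A}, (Pi.single (⟨a, ha⟩ : {a // a ∈ A}) (1 : ℝ) : {a // a ∈ A} → ℝ) b * (b.1 i : ℝ),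
        ∑ b : {a // a ∈ A}, (Pi.single (⟨a, ha⟩ : {a // a ∈ A}) (1 : ℝ) : {a // a ∈ A} → ℝ) b) : (Fin n → ℝ) × ℝ) = _
      ext i
      · simp only [Prod.fst_add, Prod.fst_sum, Prod.smul_fst, Pi.add_apply, Finset.sum_apply,
          Pi.smul_apply, Pi.zero_apply, add_zero, smul_eq_mul]
        rw [Finset.sum_eq_single ⟨a, ha⟩, Finset.sum_eq_single i]
        · simp
        · intro j _ hj
          rw [Pi.single_eq_of_ne (Ne.symm hj)]
          simp
        · simp
        · intro b _ hb
          rw [Pi.single_eq_of_ne hb]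
          simp
        · simp
      · simp [Prod.snd_sum]
    rw [h3, h4, map_add, map_sum] at h2
    simp only [map_smul, smul_eq_mul] at h2
    unfold mono
    rw [h2]
    simp only [mul_neg, Finset.sum_neg_distrib]
    ring
  · right
    rw [SetLike.not_le_iff_exists] at hD
    obtain ⟨w, hw, hw'⟩ := hD
    rw [LinearMap.mem_ker] at hw hw'
    have hT1 : ∀ i, ∑ a : {a // a ∈ A}, w a * (a.1 i : ℝ) = 0 := fun i =>
      congrFun (congrArg Prod.fst hw) i
    have hT2 : ∑ a : {a // a ∈ A}, w a = 0 := congrArg Prod.snd hw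
    have hD1 : ∑ a : {a // a ∈ A}, w a * c a.1 ≠ 0 := hw'
    have key : ∀ s : ℝ, s * (∑ a : {a // a ∈ A}, w a * c a.1) < 0 →
        ∃ w : (Fin n → ℕ) → ℝ, ∑ a ∈ A, w a = 0 ∧ (∀ i, ∑ a ∈ A, w a * (a i : ℝ) = 0) ∧
          ∑ a ∈ A, w a * c a < 0 := by
      intro s hs
      refine ⟨fun a => if h : a ∈ A then s * w ⟨a, h⟩ else 0, ?_, ?_, ?_⟩
      · rw [← Finset.sum_attach]
        simp only [Finset.coe_mem, dite_true]
        rw [← Finset.mul_sum]
        have : ∑ i ∈ A.attach, w i = 0 := hT2
        rw [this, mul_zero]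
      · intro i
        rw [← Finset.sum_attach]
        simp only [Finset.coe_mem, dite_true, mul_assoc]
        rw [← Finset.mul_sum]
        have : ∑ a ∈ A.attach, w a * (a.1 i : ℝ) = 0 := hT1 i
        rw [this, mul_zero]
      · rw [← Finset.sum_attach]
        simp only [Finset.coe_mem, dite_true, mul_assoc]
        rw [← Finset.mul_sum]
        exact hs
    rcases lt_or_gt_of_ne hD1 with h | h
    · exact key 1 (by linarith)
    · exact key (-1) (by linarith)

/-- The alternating identity. -/
theorem alternating (A : Finset (Fin n → ℕ)) (c : (Fin n → ℕ) → ℝ) (w : (Fin n → ℕ) → ℝ)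
    (hw : ∑ a ∈ A, w a = 0) (hw' : ∀ i, ∑ a ∈ A, w a * (a i : ℝ) = 0)
    (hc : ∑ a ∈ A, w a * c a < 0) (x : Fin n → ℝ) :
    ∑ S ∈ (A.filter fun a => 0 < w a).powerset, (-1 : ℤ) ^ S.card • tropE c (A \ S) x = 0 := by
  classical
  -- the weighted sum of the monomials
  have hsum : ∑ a ∈ A, w a * mono a (c a) x < 0 := by
    have : ∑ a ∈ A, w a * mono a (c a) x = ∑ a ∈ A, w a * c a +
        ∑ i, (∑ a ∈ A, w a * (a i : ℝ)) * x i := by
      simp only [mono, mul_add, Finset.sum_add_distrib, Finset.mul_sum, Finset.sum_mul]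
      congr 1
      rw [Finset.sum_comm]
      apply Finset.sum_congr rfl
      intro i _
      apply Finset.sum_congr rfl
      intro a _
      ring
    rw [this]
    simp only [hw', zero_mul, Finset.sum_const_zero, add_zero]
    exact hc
  -- a positive exponent below a negative one
  have hex : ∃ a ∈ A, 0 < w a ∧ ∃ b ∈ A, w b < 0 ∧ mono a (c a) x ≤ mono b (c b) x := by
    by_contra hcon
    push Not at hcon
    -- the negative exponents are nonempty
    have hneg : ∃ b ∈ A, w b < 0 := by
      by_contra hn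
      push Not at hn
      have h0 := (Finset.sum_eq_zero_iff_of_nonneg hn).1 hw
      have : ∑ a ∈ A, w a * mono a (c a) x = 0 := Finset.sum_eq_zero fun a ha => by
        rw [h0 a ha, zero_mul]
      linarith
    obtain ⟨b₀, hb₀, hb₀'⟩ := hneg
    -- the largest negative monomial
    have hne : (A.filter fun a => w a < 0).Nonempty := ⟨b₀, by simp [hb₀, hb₀']⟩
    obtain ⟨b, hb, hbmax⟩ := Finset.exists_max_image (A.filter fun a => w a < 0)
      (fun a => mono a (c a) x) hne
    rw [Finset.mem_filter] at hb
    have : 0 ≤ ∑ a ∈ A, w a * (mono a (c a) x - mono b (c b) x) := by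
      apply Finset.sum_nonneg
      intro a ha
      rcases lt_trichotomy (w a) 0 with h | h | h
      · have := hbmax a (by simp [ha, h])
        nlinarith
      · rw [h, zero_mul]
      · have := hcon a ha h b hb.1 hb.2
        nlinarith
    have h2 : ∑ a ∈ A, w a * (mono a (c a) x - mono b (c b) x) =
        ∑ a ∈ A, w a * mono a (c a) x - (∑ a ∈ A, w a) * mono b (c b) x := by
      rw [Finset.sum_mul, ← Finset.sum_sub_distrib]
      apply Finset.sum_congr rfl
      intro a _
      ring
    rw [h2, hw] at this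
    linarith
  obtain ⟨a, ha, hwa, b, hb, hwb, hab⟩ := hex
  have haf : a ∈ A.filter fun a => 0 < w a := by simp [ha, hwa]
  rw [← Finset.insert_erase haf, Finset.sum_powerset_insert (Finset.notMem_erase _ _),
    ← Finset.sum_add_distrib]
  apply Finset.sum_eq_zero
  intro S hS
  rw [Finset.mem_powerset] at hS
  have haS : a ∉ S := fun h => Finset.notMem_erase _ _ (hS h)
  have hbS : b ∉ S := by
    intro h
    have := hS h
    rw [Finset.mem_erase, Finset.mem_filter] at this
    linarith [this.2.2]
  have hbne : b ≠ a := by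
    rintro rfl
    linarith
  rw [Finset.card_insert_of_notMem haS, pow_succ]
  have hN1 : (A \ S).Nonempty := ⟨b, by simp [hb, hbS]⟩
  have hN2 : (A \ insert a S).Nonempty := ⟨b, by simp [hb, hbS, hbne]⟩
  have : tropE c (A \ S) x = tropE c (A \ insert a S) x := by
    unfold tropE
    rw [dif_pos hN1, dif_pos hN2]
    unfold trop
    apply le_antisymm
    · apply Finset.sup'_le
      intro d hd
      rw [Finset.mem_sdiff] at hd
      by_cases hda : d = a
      · subst hda
        refine hab.trans ?_
        exact Finset.le_sup' (fun a => mono a (c a) x) (by simp [hb, hbS, hbne])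
      · exact Finset.le_sup' (fun a => mono a (c a) x) (by simp [hd.1, hd.2, hda])
    · apply Finset.sup'_mono
      intro d hd
      simp only [Finset.mem_sdiff, Finset.mem_insert, not_or] at hd ⊢
      exact ⟨hd.1, hd.2.2⟩
  rw [this]
  simp

theorem tropE_mem (c : (Fin n → ℕ) → ℝ) : ∀ (N : ℕ) (B : Finset (Fin n → ℕ)), B.card = N →
    tropE c B ∈ quot n := by
  classical
  intro N
  induction N using Nat.strong_induction_on with
  | _ N ih =>
    intro B hB
    by_cases hBn : B.Nonempty
    swap
    · have : tropE c B = 0 := by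
        funext x
        unfold tropE
        rw [dif_neg hBn]
        rfl
      rw [this]
      exact (quot n).zero_mem
    rcases alternative B c with ⟨p, t, hpt⟩ | ⟨w, hw, hw', hc⟩
    · have : tropE c B = trop B hBn c := by
        funext x
        unfold tropE
        rw [dif_pos hBn]
      rw [this]
      exact unit_mem (unit_of_affine B hBn c p t hpt)
    · have hsum : tropE c B = -∑ S ∈ (B.filter fun a => 0 < w a).powerset.erase ∅,
          (-1 : ℤ) ^ S.card • tropE c (B \ S) := by
        funext x
        have h1 := alternating B c w hw hw' hc x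
        rw [← Finset.add_sum_erase _ _ (Finset.empty_mem_powerset _)] at h1
        simp only [Finset.card_empty, pow_zero, one_smul, Finset.sdiff_empty] at h1
        rw [Pi.neg_apply, Finset.sum_apply]
        simp only [Pi.smul_apply]
        linarith
      rw [hsum]
      apply (quot n).neg_mem
      apply (quot n).sum_mem
      intro S hS
      rw [Finset.mem_erase, Finset.mem_powerset] at hS
      apply (quot n).zsmul_mem
      apply ih (B \ S).card _ _ rfl
      rw [← hB]
      apply Finset.card_lt_card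
      rw [Finset.ssubset_iff_of_subset Finset.sdiff_subset]
      obtain ⟨s, hs⟩ := Finset.nonempty_of_ne_empty hS.1
      exact ⟨s, (Finset.filter_subset _ _ (hS.2 hs)), by simp [hs]⟩

end proof

/-- **Every tropical polynomial is rationally factorizable.** -/
theorem result : ∀ (n : ℕ), 1 ≤ n → ∀ f : (Fin n → ℝ) → ℝ, IsTropicalPolynomial f →
    RationallyFactorizable f := by
  rintro n - f ⟨A, hA, c, rfl⟩
  have h := tropE_mem c A.card A rfl
  have h2 : tropE c A = trop A hA c := by
    funext x
    unfold tropE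
    rw [dif_pos hA]
  rw [h2] at h
  exact h

end Pool.Agent.Results.MP_b8ee47_co.AllRationallyFactorizable
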